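import Mathlib

/-!
# Finite linear programming duality (minimax form)
-/

set_option autoImplicit false

namespace Pool.Agent.FTD

open Finset

/-- If for all weights `w ≥ 0` some row `i` has `w`-average at most `c`, then some probability
vector on the rows has all column averages at most `c`. -/
theorem duality {V ι : Type} [Fintype V] [Fintype ι] (A : ι → V → ℝ) (c : ℝ)
    (h : ∀ w : V → ℝ, (∀ v, 0 ≤ w v) → ∃ i, ∑ v, w v * A i v ≤ c * ∑ v, w v) :
    ∃ p : ι → ℝ, (∀ i, 0 ≤ p i) ∧ ∑ i, p i = 1 ∧ ∀ v, ∑ i, p i * A i v ≤ c := by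
  classical
  let T : (ι → ℝ) →ₗ[ℝ] (V → ℝ) :=
    { toFun := fun p v => ∑ i, p i * A i v
      map_add' := by
        intro p q; funext v
        simp only [Pi.add_apply, add_mul, sum_add_distrib]
      map_smul' := by
        intro a p; funext v
        simp only [Pi.smul_apply, smul_eq_mul, RingHom.id_apply, mul_sum, mul_assoc] }
  have hTc : Continuous T := T.continuous_of_finiteDimensional
  let S : Set (V → ℝ) := T '' stdSimplex ℝ ι
  let O : Set (V → ℝ) := {y | ∀ v, y v ≤ c}
  have hSconv : Convex ℝ S := (convex_stdSimplex ℝ ι).linear_image T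
  have hScomp : IsCompact S := (isCompact_stdSimplex ℝ ι).image hTc
  have hOconv : Convex ℝ O := by
    intro x hx y hy a b ha hb hab v
    have h1 := hx v
    have h2 := hy v
    simp only [Pi.add_apply, Pi.smul_apply, smul_eq_mul]
    calc a * x v + b * y v ≤ a * c + b * c :=
          add_le_add (mul_le_mul_of_nonneg_left h1 ha) (mul_le_mul_of_nonneg_left h2 hb)
      _ = c := by rw [← add_mul, hab, one_mul]
  have hOclosed : IsClosed O := by
    have : O = ⋂ v, {y : V → ℝ | y v ≤ c} := by
      ext y; simp [O]
    rw [this]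
    exact isClosed_iInter fun v => isClosed_le (continuous_apply v) continuous_const
  by_cases hd : Disjoint S O
  · exfalso
    obtain ⟨f, u, v', h1, h2, h3⟩ :=
      geometric_hahn_banach_compact_closed hSconv hScomp hOconv hOclosed hd
    have hf : ∀ y : V → ℝ, f y = ∑ v, y v * f (Pi.single v 1) := by
      intro y
      have hy : y = ∑ v, y v • (Pi.single v (1 : ℝ) : V → ℝ) := by
        funext z
        simp [Finset.sum_apply, Pi.single_apply]
      conv_lhs => rw [hy]
      simp [map_sum, map_smul]
    have hneg : ∀ v, f (Pi.single v 1) ≤ 0 := by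
      intro v
      by_contra hpos
      push Not at hpos
      have hc0 : (fun _ => c : V → ℝ) ∈ O := fun _ => le_refl _
      have h4 := h3 _ hc0
      set k : ℝ := (f (fun _ => c) - v') / f (Pi.single v 1) with hk
      have hk0 : 0 ≤ k := div_nonneg (by linarith) hpos.le
      have hmem : ((fun _ => c : V → ℝ) - k • (Pi.single v (1 : ℝ) : V → ℝ)) ∈ O := by
        intro z
        simp only [Pi.sub_apply, Pi.smul_apply, smul_eq_mul]
        have : 0 ≤ k * (Pi.single v (1 : ℝ) : V → ℝ) z := by
          apply mul_nonneg hk0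
          by_cases hz : z = v
          · subst hz; simp
          · simp [hz]
        linarith
      have h5 := h3 _ hmem
      rw [map_sub, map_smul, smul_eq_mul, hk, div_mul_cancel₀ _ hpos.ne'] at h5
      linarith
    obtain ⟨i, hi⟩ := h (fun v => - f (Pi.single v 1)) (fun v => by
      have := hneg v; linarith)
    have hAi : A i ∈ S := by
      refine ⟨Pi.single i 1, single_mem_stdSimplex ℝ i, ?_⟩
      funext v
      show ∑ j, (Pi.single i (1 : ℝ) : ι → ℝ) j * A j v = A i v
      simp [Pi.single_apply]
    have h6 := h1 _ hAi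
    have hc0 : (fun _ => c : V → ℝ) ∈ O := fun _ => le_refl _
    have h7 := h3 _ hc0
    rw [hf] at h6 h7
    have h8 : ∑ v, (- f (Pi.single v 1)) * A i v = - ∑ v, A i v * f (Pi.single v 1) := by
      rw [← sum_neg_distrib]
      exact sum_congr rfl fun v _ => by ring
    have h9 : c * ∑ v, (- f (Pi.single v 1)) = - ∑ v, c * f (Pi.single v 1) := by
      rw [mul_sum, ← sum_neg_distrib]
      exact sum_congr rfl fun v _ => by ring
    have h10 : ∑ v, (- f (Pi.single v 1)) * A i v ≤ c * ∑ v, (- f (Pi.single v 1)) := hi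
    rw [h8, h9] at h10
    linarith
  · rw [Set.not_disjoint_iff] at hd
    obtain ⟨y, ⟨p, hp, rfl⟩, hy⟩ := hd
    exact ⟨p, hp.1, hp.2, fun v => hy v⟩

end Pool.Agent.FTD
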